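import Mathlib
import Pool.Agent.H710R2.DP.VTasks
import Pool.Agent.H759R2.Kad.Props6

/-!
Existence of a faithful normal tracial state on a finite von Neumann algebra on a separable
Hilbert space: exact statements of the sub-tasks.
-/

open scoped ComplexOrder InnerProductSpace Topology
open Filter

noncomputable section

namespace H917R2.Tr

open H759R2.Kad H710R2.DP

section defs

variable {H : Type} [NormedAddCommGroup H] [InnerProductSpace ℂ H]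

/-- `∑ ‖x ξ_k‖²`. -/
def mu {ι : Type} (ξ : ι → H) (x : H →L[ℂ] H) : ℝ := ∑' k, ‖x (ξ k)‖ ^ 2

/-- Square summable family. -/
def Sq {ι : Type} (ξ : ι → H) : Prop := Summable fun k => ‖ξ k‖ ^ 2

/-- `∑ ⟨ξ_k, x ξ_k⟩`. -/
def vf {ι : Type} (ξ : ι → H) (x : H →L[ℂ] H) : ℂ := ∑' k, ⟪ξ k, x (ξ k)⟫_ℂ

variable [CompleteSpace H]

/-- `M` is finite. -/
def Fini (M : VonNeumannAlgebra H) : Prop := ∀ v ∈ M, star v * v = 1 → v * star v = 1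

/-- `φ(x*x) ≤ c φ(xx*)` for `x` in `g M`, `g` central. -/
def QT (M : VonNeumannAlgebra H) (g : H →L[ℂ] H) (c : ℝ) (ξ : ℕ → H) : Prop :=
  ∀ x ∈ M, g * x = x → mu ξ x ≤ c * mu ξ (star x)

/-- The functional is faithful on `g M`. -/
def Fa (M : VonNeumannAlgebra H) (g : H →L[ℂ] H) (ξ : ℕ → H) : Prop :=
  ∀ x ∈ M, g * x = x → mu ξ x = 0 → x = 0

end defs

/-- Countable index sets can be replaced by `ℕ`. -/
def T_cnt : Prop :=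
  ∀ (H : Type) [NormedAddCommGroup H] [InnerProductSpace ℂ H] (ι : Type) [Countable ι]
    (ξ : ι → H), Sq ξ → ∃ ζ : ℕ → H, Sq ζ ∧ (∀ x : H →L[ℂ] H, mu ζ x = mu ξ x) ∧
      ∀ z : H →L[ℂ] H, (∀ k, z (ξ k) = ξ k) → ∀ k, z (ζ k) = ζ k

/-- A separating square summable sequence. -/
def T_vec : Prop :=
  ∀ (H : Type) [NormedAddCommGroup H] [InnerProductSpace ℂ H] [CompleteSpace H]
    [TopologicalSpace.SeparableSpace H],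
    ∃ ξ : ℕ → H, Sq ξ ∧ ∀ x : H →L[ℂ] H, mu ξ x = 0 → x = 0

/-- Elementary properties of `mu`. -/
def T_mu : Prop :=
  ∀ (H : Type) [NormedAddCommGroup H] [InnerProductSpace ℂ H] [CompleteSpace H] (ι : Type)
    (ξ : ι → H), Sq ξ →
    (∀ x : H →L[ℂ] H, Summable fun k => ‖x (ξ k)‖ ^ 2) ∧
    (∀ x : H →L[ℂ] H, 0 ≤ mu ξ x) ∧
    (∀ x : H →L[ℂ] H, mu ξ x ≤ ‖x‖ ^ 2 * mu ξ 1) ∧
    (∀ x y : H →L[ℂ] H, star x * x = star y * y → mu ξ x = mu ξ y) ∧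
    (∀ (n : ℕ) (w : Fin n → (H →L[ℂ] H)) (x : H →L[ℂ] H),
      (∑ i, w i * star (w i)) * x = x → mu ξ x = ∑ i, mu ξ (star (w i) * x)) ∧
    ∀ x y : H →L[ℂ] H, mu ξ (x + y) + mu ξ (x - y) = 2 * mu ξ x + 2 * mu ξ y

/-- Vector functionals are normal in the sense of `H759R2.Kad`. -/
def N_nrm : Prop :=
  ∀ (H : Type) [NormedAddCommGroup H] [InnerProductSpace ℂ H] [CompleteSpace H]
    (M : VonNeumannAlgebra H) (ξ : ℕ → H), Sq ξ →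
    ∃ φ : M.toStarSubalgebra →ₗ[ℂ] ℂ, Nrm φ ∧
      (∀ x : M.toStarSubalgebra, φ x = vf ξ (x : H →L[ℂ] H)) ∧
      ∀ x : M.toStarSubalgebra, φ (star x * x) = (mu ξ (x : H →L[ℂ] H) : ℂ)

/-- Local `(1+δ)`-trace, made of copies of a small corner. -/
def L_loc : Prop :=
  ∀ (H : Type) [NormedAddCommGroup H] [InnerProductSpace ℂ H] [CompleteSpace H]
    (M : VonNeumannAlgebra H), Fini M → ∀ ξ : ℕ → H, Sq ξ →
    (∀ x ∈ M, mu ξ x = 0 → x = 0) → ∀ δ : ℝ, 0 < δ → ∀ z₀, IsCP M z₀ → z₀ ≠ 0 →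
    ∃ g, IsCP M g ∧ g ≠ 0 ∧ z₀ * g = g ∧ ∃ (n : ℕ) (w : Fin n → (H →L[ℂ] H)),
      (∀ j, w j ∈ M ∧ g * w j = w j) ∧ ∑ j, w j * star (w j) = g ∧
      ∀ x ∈ M, g * x = x → ∑ j, mu ξ (x * w j) ≤ (1 + δ) * ∑ j, mu ξ (star x * w j)

/-- The copies in vector form. -/
def L_cop : Prop :=
  ∀ (H : Type) [NormedAddCommGroup H] [InnerProductSpace ℂ H] [CompleteSpace H]
    (ξ : ℕ → H) (g : H →L[ℂ] H) (n : ℕ) (w : Fin n → (H →L[ℂ] H)), Sq ξ →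
    (∀ j, g * w j = w j) → ∃ ζ : ℕ → H, Sq ζ ∧ (∀ k, g (ζ k) = ζ k) ∧
      ∀ x : H →L[ℂ] H, mu ζ x = ∑ j, mu ξ (x * w j)

/-- Countable central partition with local data. -/
def G_part : Prop :=
  ∀ (H : Type) [NormedAddCommGroup H] [InnerProductSpace ℂ H] [CompleteSpace H]
    [TopologicalSpace.SeparableSpace H] (M : VonNeumannAlgebra H)
    (P : (H →L[ℂ] H) → (ℕ → H) → Prop),
    (∀ z₀, IsCP M z₀ → z₀ ≠ 0 → ∃ g, IsCP M g ∧ g ≠ 0 ∧ z₀ * g = g ∧ ∃ ζ : ℕ → H, P g ζ) →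
    ∃ (T : Type) (_ : Countable T) (g : T → (H →L[ℂ] H)) (ζ : T → ℕ → H),
      (∀ t, IsCP M (g t) ∧ P (g t) (ζ t)) ∧ (∀ s t, s ≠ t → g s * g t = 0) ∧
      ∀ η : H, HasSum (fun t => ‖g t η‖ ^ 2) (‖η‖ ^ 2)

/-- Joining countably many sequences of vectors. -/
def G_join : Prop :=
  ∀ (H : Type) [NormedAddCommGroup H] [InnerProductSpace ℂ H] [CompleteSpace H] (T : Type)
    [Countable T] (ζ : T → ℕ → H), (∀ t, Sq (ζ t)) → (Summable fun t => mu (ζ t) 1) →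
    ∃ χ : ℕ → H, Sq χ ∧ ∀ x : H →L[ℂ] H, HasSum (fun t => mu (ζ t) x) (mu χ x)

/-- First gluing: a faithful `2`-trace. -/
def G_one : Prop :=
  ∀ (H : Type) [NormedAddCommGroup H] [InnerProductSpace ℂ H] [CompleteSpace H]
    [TopologicalSpace.SeparableSpace H] (M : VonNeumannAlgebra H), Fini M →
    ∃ ξ : ℕ → H, Sq ξ ∧ QT M 1 2 ξ ∧ Fa M 1 ξ

/-- Second gluing: `(1+δ)`-traces comparable with a given faithful `2`-trace. -/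
def G_two : Prop :=
  ∀ (H : Type) [NormedAddCommGroup H] [InnerProductSpace ℂ H] [CompleteSpace H]
    [TopologicalSpace.SeparableSpace H] (M : VonNeumannAlgebra H), Fini M →
    ∀ ξ : ℕ → H, Sq ξ → QT M 1 2 ξ → Fa M 1 ξ → ∀ δ : ℝ, 0 < δ →
    ∃ ζ : ℕ → H, Sq ζ ∧ QT M 1 (1 + δ) ζ ∧ ∀ x ∈ M, mu ζ x ≤ 4 * mu ξ x ∧ mu ξ x ≤ 4 * mu ζ x

/-- Elementary properties of `vf`. -/
def R_vf : Prop :=
  ∀ (H : Type) [NormedAddCommGroup H] [InnerProductSpace ℂ H] [CompleteSpace H] (ξ : ℕ → H),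
    Sq ξ → (∀ x : H →L[ℂ] H, Summable fun k => ⟪ξ k, x (ξ k)⟫_ℂ) ∧
      (∀ x y : H →L[ℂ] H, vf ξ (x + y) = vf ξ x + vf ξ y) ∧
      (∀ (a : ℂ) (x : H →L[ℂ] H), vf ξ (a • x) = a * vf ξ x) ∧
      (∀ x : H →L[ℂ] H, ‖vf ξ x‖ ≤ ‖x‖ * mu ξ 1) ∧
      ∀ x : H →L[ℂ] H, vf ξ (star x * x) = (mu ξ x : ℂ)

/-- The limit functional. -/
def R_lim : Prop :=
  ∀ (H : Type) [NormedAddCommGroup H] [InnerProductSpace ℂ H] [CompleteSpace H]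
    (M : VonNeumannAlgebra H) (ξ : ℕ → H), Sq ξ →
    (∀ δ : ℝ, 0 < δ → ∃ ζ : ℕ → H, Sq ζ ∧ QT M 1 (1 + δ) ζ ∧
      ∀ x ∈ M, mu ζ x ≤ 4 * mu ξ x ∧ mu ξ x ≤ 4 * mu ζ x) →
    ∃ θ : (H →L[ℂ] H) → ℂ, (∀ x y, θ (x + y) = θ x + θ y) ∧
      (∀ (a : ℂ) (x), θ (a • x) = a * θ x) ∧
      (∀ x ∈ M, θ (star x * x) = θ (x * star x)) ∧
      ∀ x ∈ M, (θ (star x * x)).im = 0 ∧ (θ (star x * x)).re ≤ 4 * mu ξ x ∧
        mu ξ x ≤ 4 * (θ (star x * x)).re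

/-- Radon-Nikodym: a positive functional dominated by `mu ξ` is of vector form. -/
def R_rn : Prop :=
  ∀ (H : Type) [NormedAddCommGroup H] [InnerProductSpace ℂ H] [CompleteSpace H]
    (M : VonNeumannAlgebra H) (ξ : ℕ → H) (C : ℝ) (θ : (H →L[ℂ] H) → ℂ), Sq ξ →
    (∀ x y, θ (x + y) = θ x + θ y) → (∀ (a : ℂ) (x), θ (a • x) = a * θ x) →
    (∀ x ∈ M, (θ (star x * x)).im = 0 ∧ 0 ≤ (θ (star x * x)).re ∧
      (θ (star x * x)).re ≤ C * mu ξ x) →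
    ∃ ζ : ℕ → H, Sq ζ ∧ ∀ x ∈ M, θ x = vf ζ x

/-- Main statement. -/
def TR_main : Prop :=
  ∀ (H : Type) [NormedAddCommGroup H] [InnerProductSpace ℂ H] [CompleteSpace H]
    [TopologicalSpace.SeparableSpace H] [Nontrivial H] (M : VonNeumannAlgebra H),
    (∀ v ∈ M, star v * v = 1 → v * star v = 1) →
    ∃ ξ : ℕ → H, Summable (fun k => ‖ξ k‖ ^ 2) ∧ vf ξ 1 = 1 ∧
      (∀ x ∈ M, ∀ y ∈ M, vf ξ (x * y) = vf ξ (y * x)) ∧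
      ∀ x ∈ M, vf ξ (star x * x) = 0 → x = 0

end H917R2.Tr
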