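import Mathlib
import Pool.Agent.H917R2.Tr.Stubs

open scoped ComplexOrder InnerProductSpace Topology
open Filter

noncomputable section

namespace H917R2.Tr

open H759R2.Kad H710R2.DP

theorem polar_tr {H : Type} [NormedAddCommGroup H] [InnerProductSpace ℂ H] [CompleteSpace H]
    (M : VonNeumannAlgebra H) (θ : (H →L[ℂ] H) → ℂ) (hadd : ∀ x y, θ (x + y) = θ x + θ y)
    (hsmul : ∀ (a : ℂ) (x), θ (a • x) = a * θ x)
    (htr : ∀ x ∈ M, θ (star x * x) = θ (x * star x)) :
    ∀ x ∈ M, ∀ y ∈ M, θ (x * y) = θ (y * x) := by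
  have key : ∀ a ∈ M, ∀ b ∈ M, θ (star a * b) = θ (b * star a) := by
    intro a ha b hb
    have e : ∀ b ∈ M, θ (star a * b) + θ (star b * a) = θ (a * star b) + θ (b * star a) := by
      intro b hb
      have h := htr (a + b) (add_mem ha hb)
      have h1 : star (a + b) * (a + b) =
          star a * a + (star a * b + (star b * a + star b * b)) := by
        rw [star_add]; noncomm_ring
      have h2 : (a + b) * star (a + b) =
          a * star a + (a * star b + (b * star a + b * star b)) := by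
        rw [star_add]; noncomm_ring
      rw [h1, h2] at h
      simp only [hadd] at h
      rw [htr a ha, htr b hb] at h
      linear_combination h
    have e1 := e b hb
    have hib : Complex.I • b ∈ M := M.toStarSubalgebra.smul_mem hb Complex.I
    have e2 := e _ hib
    have s1 : star (Complex.I • b) = (-Complex.I) • star b := by
      rw [star_smul]; simp
    rw [s1, mul_smul_comm, smul_mul_assoc, mul_smul_comm, smul_mul_assoc, hsmul, hsmul, hsmul,
      hsmul] at e2
    have hI : Complex.I * Complex.I = -1 := Complex.I_mul_I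
    linear_combination (1 / 2 : ℂ) * e1 - (Complex.I / 2) * e2 +
      (1 / 2 : ℂ) * (θ (star a * b) - θ (star b * a) + θ (a * star b) - θ (b * star a)) * hI
  intro x hx y hy
  have h := key (star x) (star_mem hx) y hy
  rwa [star_star] at h

theorem p_main (h1 : G_one) (h2 : G_two) (h3 : R_lim) (h4 : R_rn) (h5 : T_mu) :
    TR_main := by
  intro H _ _ _ _ _ M hfin
  obtain ⟨ξ, hS, hQ, hF⟩ := h1 H M hfin
  obtain ⟨θ, hadd, hsmul, htr, hb⟩ := h3 H M ξ hS (fun δ hδ => h2 H M hfin ξ hS hQ hF δ hδ)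
  obtain ⟨-, hnn, -⟩ := h5 H ℕ ξ hS
  obtain ⟨ζ, hζ, hθ⟩ := h4 H M ξ 4 θ hS hadd hsmul (fun x hx => by
    obtain ⟨a1, a2, a3⟩ := hb x hx
    exact ⟨a1, by linarith [hnn x], a2⟩)
  have h1M : (1 : H →L[ℂ] H) ∈ M := one_mem M
  have hpos : 0 < mu ξ 1 := by
    rcases (hnn 1).lt_or_eq with h | h
    · exact h
    · exact absurd (hF 1 h1M (by simp) h.symm) one_ne_zero
  have hc := hb 1 h1M
  simp only [star_one, one_mul] at hc
  obtain ⟨c1, c2, c3⟩ := hc
  have hcpos : 0 < (θ 1).re := by linarith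
  set c : ℝ := (θ 1).re with hcdef
  have hθ1 : θ 1 = (c : ℂ) := Complex.ext (by simp [hcdef]) (by simp [c1])
  set χ : ℕ → H := fun k => ((Real.sqrt c)⁻¹ : ℂ) • ζ k with hχ
  have hsc : (Real.sqrt c) ^ 2 = c := Real.sq_sqrt hcpos.le
  have hsq : 0 < Real.sqrt c := Real.sqrt_pos.2 hcpos
  have hvf : ∀ x, vf χ x = (c : ℂ)⁻¹ * vf ζ x := by
    intro x
    unfold vf
    rw [← tsum_mul_left]
    congr 1
    ext k
    simp only [hχ, map_smul, inner_smul_left, inner_smul_right]
    have : (starRingEnd ℂ) ((Real.sqrt c : ℂ)⁻¹) = (Real.sqrt c : ℂ)⁻¹ := by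
      rw [map_inv₀, Complex.conj_ofReal]
    rw [this]
    have h2 : ((Real.sqrt c : ℂ))⁻¹ * ((Real.sqrt c : ℂ))⁻¹ = (c : ℂ)⁻¹ := by
      rw [← mul_inv, ← Complex.ofReal_mul, ← sq, hsc]
    rw [← h2]
    ring
  have hcC : (c : ℂ) ≠ 0 := by exact_mod_cast hcpos.ne'
  refine ⟨χ, ?_, ?_, ?_, ?_⟩
  · have : (fun k => ‖χ k‖ ^ 2) = fun k => ((Real.sqrt c)⁻¹) ^ 2 * ‖ζ k‖ ^ 2 := by
      ext k
      simp only [hχ, norm_smul, norm_inv, Complex.norm_real, Real.norm_eq_abs,
        abs_of_pos hsq]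
      ring
    rw [this]
    exact hζ.mul_left _
  · rw [hvf, ← hθ 1 h1M, hθ1, inv_mul_cancel₀ hcC]
  · intro x hx y hy
    rw [hvf, hvf, ← hθ _ (mul_mem hx hy), ← hθ _ (mul_mem hy hx),
      polar_tr M θ hadd hsmul htr x hx y hy]
  · intro x hx h0
    rw [hvf, ← hθ _ (mul_mem (star_mem hx) hx)] at h0
    have h1 : θ (star x * x) = 0 := by
      rcases mul_eq_zero.1 h0 with h | h
      · exact absurd h (inv_ne_zero hcC)
      · exact h
    obtain ⟨-, -, a3⟩ := hb x hx
    rw [h1] at a3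
    simp only [Complex.zero_re, mul_zero] at a3
    exact hF x hx (by simp) (le_antisymm a3 (hnn x))

end H917R2.Tr
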