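import Pool.Agent.H917R2.Tr.Stubs

open scoped ComplexOrder InnerProductSpace Topology
open Filter

noncomputable section

namespace H917R2.Tr

open H759R2.Kad H710R2.DP

theorem GOne_coef {T : Type} [Countable T] (a : T → ℝ) (ha : ∀ t, 0 ≤ a t) :
    ∃ l : T → ℝ, (∀ t, 0 < l t) ∧ Summable fun t => l t ^ 2 * a t := by
  obtain ⟨e, he, c, hc, -⟩ := NNReal.exists_pos_sum_of_countable (ε := 1) one_ne_zero T
  refine ⟨fun t => Real.sqrt (e t / (1 + a t)), ?_, ?_⟩
  · intro t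
    have h1 : (0 : ℝ) < e t := he t
    have h2 := ha t
    exact Real.sqrt_pos.2 (by positivity)
  · have hs : Summable fun t => (e t : ℝ) := NNReal.summable_coe.2 hc.summable
    refine Summable.of_nonneg_of_le (fun t => mul_nonneg (sq_nonneg _) (ha t)) (fun t => ?_) hs
    have h1 : (0 : ℝ) < e t := he t
    have h2 := ha t
    rw [Real.sq_sqrt (by positivity), div_mul_eq_mul_div, div_le_iff₀ (by positivity)]
    nlinarith

theorem GOne_mu_smul {H : Type} [NormedAddCommGroup H] [InnerProductSpace ℂ H] (ζ : ℕ → H)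
    (l : ℝ) (x : H →L[ℂ] H) : mu (fun k => (l : ℂ) • ζ k) x = l ^ 2 * mu ζ x := by
  unfold mu
  rw [← tsum_mul_left]
  refine tsum_congr fun k => ?_
  rw [map_smul, norm_smul, mul_pow, Complex.norm_real, Real.norm_eq_abs, sq_abs]

theorem p_G_one (h1 : T_vec) (h2 : L_loc) (h3 : L_cop) (h4 : G_part) (h5 : G_join) (h6 : T_mu) :
    G_one := by
  intro H _ _ _ _ M hF
  obtain ⟨ξ0, hξ0, hsep⟩ := h1 H
  obtain ⟨-, hnn0, -⟩ := h6 H ℕ ξ0 hξ0
  set P : (H →L[ℂ] H) → (ℕ → H) → Prop := fun g ζ => Sq ζ ∧ (∀ k, g (ζ k) = ζ k) ∧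
    (∀ x ∈ M, g * x = x → mu ζ x ≤ 2 * mu ζ (star x)) ∧
    (∀ x ∈ M, g * x = x → mu ζ x = 0 → x = 0) with hP
  have hloc : ∀ z₀, IsCP M z₀ → z₀ ≠ 0 →
      ∃ g, IsCP M g ∧ g ≠ 0 ∧ z₀ * g = g ∧ ∃ ζ : ℕ → H, P g ζ := by
    intro z₀ hz hz0
    obtain ⟨g, hg, hg0, hzg, n, w, hw, hws, hwt⟩ :=
      h2 H M hF ξ0 hξ0 (fun x _ h => hsep x h) 1 one_pos z₀ hz hz0
    obtain ⟨ζ, hζ, hgζ, hmu⟩ := h3 H ξ0 g n w hξ0 (fun j => (hw j).2)
    refine ⟨g, hg, hg0, hzg, ζ, hζ, hgζ, ?_, ?_⟩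
    · intro x hx hgx
      have := hwt x hx hgx
      rw [hmu, hmu]
      norm_num at this
      exact this
    · intro x hx hgx h0
      rw [hmu] at h0
      have h7 : ∀ j, mu ξ0 (x * w j) = 0 := by
        intro j
        exact (Finset.sum_eq_zero_iff_of_nonneg (fun j _ => hnn0 _)).1 h0 j (Finset.mem_univ j)
      have h8 : ∀ j, x * w j = 0 := fun j => hsep _ (h7 j)
      have h9 : x * g = 0 := by
        rw [← hws, Finset.mul_sum]
        refine Finset.sum_eq_zero fun j _ => ?_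
        rw [← mul_assoc, h8, zero_mul]
      rw [← hgx, hg.2.2 x hx, h9]
  obtain ⟨T, hT, g, ζ, hgP, -, hsum⟩ := h4 H M P hloc
  have hSq : ∀ t, Sq (ζ t) := fun t => (hgP t).2.1
  have hnn : ∀ t x, 0 ≤ mu (ζ t) x := fun t => (h6 H ℕ (ζ t) (hSq t)).2.1
  obtain ⟨l, hl, hls⟩ := GOne_coef (fun t => mu (ζ t) 1) (fun t => hnn t 1)
  have hmu : ∀ t x, mu (fun k => (l t : ℂ) • ζ t k) x = l t ^ 2 * mu (ζ t) x := fun t x =>
    GOne_mu_smul (ζ t) (l t) x
  obtain ⟨ξ, hξ, hξs⟩ := h5 H T (fun t k => (l t : ℂ) • ζ t k) (by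
    intro t
    have := (hSq t).mul_left (l t ^ 2)
    refine this.congr fun k => ?_
    rw [norm_smul, mul_pow, Complex.norm_real, Real.norm_eq_abs, sq_abs]) (by
    refine hls.congr fun t => ?_
    rw [hmu])
  -- multiplication by `g t` does not change the functional
  have hmg : ∀ t x, mu (ζ t) (x * g t) = mu (ζ t) x := by
    intro t x
    unfold mu
    refine tsum_congr fun k => ?_
    rw [ContinuousLinearMap.mul_apply, (hgP t).2.2.1 k]
  have hgM : ∀ t, g t ∈ M := fun t => (hgP t).1.2.1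
  have hgc : ∀ t, ∀ a ∈ M, g t * a = a * g t := fun t => (hgP t).1.2.2
  have hgs : ∀ t, star (g t) = g t := fun t => (hgP t).1.1.1
  have hgg : ∀ t, g t * g t = g t := fun t => (hgP t).1.1.2
  refine ⟨ξ, hξ, ?_, ?_⟩
  · intro x hx _
    have hle : ∀ t, mu (fun k => (l t : ℂ) • ζ t k) x ≤
        2 * mu (fun k => (l t : ℂ) • ζ t k) (star x) := by
      intro t
      rw [hmu, hmu]
      have hy : g t * x ∈ M := mul_mem (hgM t) hx
      have e1 := (hgP t).2.2.2.1 (g t * x) hy (by rw [← mul_assoc, hgg])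
      rw [star_mul, hgs, hmg, hgc t x hx, hmg] at e1
      have := mul_le_mul_of_nonneg_left e1 (sq_nonneg (l t))
      linarith
    exact hasSum_le hle (hξs x) ((hξs (star x)).mul_left 2)
  · intro x hx _ h0
    have hz : ∀ t, mu (fun k => (l t : ℂ) • ζ t k) x = 0 := by
      have hs := hξs x
      rw [h0] at hs
      have hn : ∀ t, 0 ≤ mu (fun k => (l t : ℂ) • ζ t k) x := by
        intro t
        rw [hmu]
        exact mul_nonneg (sq_nonneg _) (hnn t x)
      have := (hasSum_zero_iff_of_nonneg hn).1 hs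
      exact fun t => congrFun this t
    have hgx : ∀ t, g t * x = 0 := by
      intro t
      have e1 := hz t
      rw [hmu] at e1
      have e2 : mu (ζ t) x = 0 := (mul_eq_zero.1 e1).resolve_left (pow_ne_zero _ (hl t).ne')
      have hy : g t * x ∈ M := mul_mem (hgM t) hx
      refine (hgP t).2.2.2.2 (g t * x) hy (by rw [← mul_assoc, hgg]) ?_
      rw [hgc t x hx, hmg, e2]
    ext η
    have e3 := hsum (x η)
    have e4 : (fun t => ‖g t (x η)‖ ^ 2) = fun _ => (0 : ℝ) := by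
      funext t
      have : g t (x η) = (g t * x) η := rfl
      rw [this, hgx t]
      simp
    rw [e4] at e3
    have e5 := e3.unique hasSum_zero
    have e6 : ‖x η‖ = 0 := by
      have := pow_eq_zero_iff (two_ne_zero) |>.1 e5
      exact this
    simpa using e6

end H917R2.Tr
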