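import Pool.Agent.H917R2.Tr.Stubs

/-! Task T_cnt: countable index sets can be replaced by `ℕ`. -/

open scoped ComplexOrder InnerProductSpace Topology
open Filter

namespace H917R2.Tr

theorem p_T_cnt : H917R2.Tr.T_cnt := by
  intro H _ _ ι _ ξ hξ
  obtain ⟨f, hf⟩ := exists_injective_nat ι
  have hz : ∀ n, n ∉ Set.range f → Function.extend f ξ 0 n = 0 := by
    intro n hn
    rw [Function.extend_apply' _ _ _ (fun h => hn h)]
    rfl
  have he : ∀ k, Function.extend f ξ 0 (f k) = ξ k := fun k => hf.extend_apply _ _ _
  refine ⟨Function.extend f ξ 0, ?_, ?_, ?_⟩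
  · unfold Sq at hξ ⊢
    rw [← hf.summable_iff]
    · refine hξ.congr fun k => ?_
      simp only [Function.comp_apply, he]
    · intro n hn
      rw [hz n hn]
      simp
  · intro x
    unfold mu
    rw [← hf.tsum_eq]
    · exact tsum_congr fun k => by rw [he]
    · intro n hn
      by_contra hcon
      apply hn
      simp only
      rw [hz n hcon]
      simp
  · intro z hzk n
    by_cases hn : n ∈ Set.range f
    · obtain ⟨k, rfl⟩ := hn
      rw [he]
      exact hzk k
    · rw [hz n hn]
      exact map_zero z

end H917R2.Tr
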