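import Mathlib
import Pool.Agent.H917R2.Tr.Stubs
import Pool.Agent.H917R2.Tr.Fin
import Pool.Agent.H759R2.Kad.Assemble7
import Pool.Agent.H831R2.Tr.GJoin
import Pool.Agent.H917R2.Tr.GOne
import Pool.Agent.H316R2.Tr.GPart
import Pool.Agent.H477R2.Gtwo
import Pool.Agent.H11R2.GEN.LCop
import Pool.Agent.H558R2.Tr.LLoc
import Pool.Agent.H484R2.GEN.Nnrm
import Pool.Agent.H956R2.Tr.Rlim
import Pool.Agent.H677R2.Tr.Rvf
import Pool.Agent.H917R2.Tr.TCnt
import Pool.Agent.H287R2.Tr.Mu
import Pool.Agent.H917R2.Tr.TVec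
import Pool.Agent.H601R2.TrRn

noncomputable section

namespace H917R2.Tr

open H759R2.Kad H710R2.DP

/-- The local statement. -/
theorem loc_all : L_loc := by
  have hcomp : W_comp.{0} := prove6_comp
  have hsupp : W_supp.{0} := prove6_supp
  have hcanc : W_canc.{0} := prove6_canc hcomp
  have hexh : W_exh.{0} := prove6_exh hsupp
  have hsel : W_sel.{0} := prove6_sel hcanc
  have hnear : W_near.{0} := prove6_near' hsel hexh
  have hall : W_all.{0} := prove6_all prove6_step
  have hseq : W_seq.{0} := prove6_seq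
  have hinf : W_inf.{0} := prove6_inf hseq
  have hcop : W_cop.{0} := prove6_cop hcomp hinf
  exact p_L_loc p_N_nrm hnear hall hcop prove6_sub all_wst p_T_mu

theorem main_of (hrn : R_rn) (hvec : T_vec) : TR_main :=
  p_main (p_G_one hvec loc_all (H11R2.GEN.p_L_cop p_T_cnt) H316R2.Tr.p_G_part
      (p_G_join p_T_cnt) p_T_mu)
    (H477R2.Gtwo.p_G_two loc_all (H11R2.GEN.p_L_cop p_T_cnt) H316R2.Tr.p_G_part
      (p_G_join p_T_cnt) p_T_mu)
    (H956R2.Tr.p_R_lim H677R2.Tr.p_R_vf p_T_mu) hrn p_T_mu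

/-- Every finite von Neumann algebra on a nonzero separable Hilbert space has a faithful normal
tracial state (given by a square summable sequence of vectors). -/
theorem tr_main : TR_main := main_of p_R_rn p_T_vec

end H917R2.Tr
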