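import Mathlib
import Pool.Agent.H917R2.Tr.Stubs

open scoped ComplexOrder InnerProductSpace Topology
open Filter

noncomputable section

namespace H917R2.Tr

theorem p_T_vec : T_vec := by
  intro H _ _ _ _
  set d : ℕ → H := TopologicalSpace.denseSeq H with hd
  have hdense : DenseRange d := TopologicalSpace.denseRange_denseSeq H
  set c : ℕ → ℝ := fun k => (1 / 2 : ℝ) ^ k / (1 + ‖d k‖) with hc
  have hcpos : ∀ k, 0 < c k := fun k => by
    simp only [hc]; positivity
  set ξ : ℕ → H := fun k => ((c k : ℝ) : ℂ) • d k with hξ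
  have hn : ∀ k, ‖ξ k‖ ≤ (1 / 2 : ℝ) ^ k := fun k => by
    simp only [hξ, norm_smul, Complex.norm_real, Real.norm_eq_abs, abs_of_pos (hcpos k)]
    simp only [hc]
    have h1 : 0 ≤ ‖d k‖ := norm_nonneg _
    rw [div_mul_eq_mul_div, div_le_iff₀ (by positivity)]
    have : (0 : ℝ) < (1 / 2 : ℝ) ^ k := by positivity
    nlinarith
  have hsq : ∀ k, ‖ξ k‖ ^ 2 ≤ (1 / 4 : ℝ) ^ k := fun k => by
    calc ‖ξ k‖ ^ 2 ≤ ((1 / 2 : ℝ) ^ k) ^ 2 := by
          gcongr; exact hn k
      _ = (1 / 4 : ℝ) ^ k := by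
          rw [← pow_mul, mul_comm, pow_mul]; norm_num
  have hS : Sq ξ := by
    refine Summable.of_nonneg_of_le (fun k => by positivity) hsq
      (summable_geometric_of_lt_one (by norm_num) (by norm_num))
  refine ⟨ξ, hS, ?_⟩
  intro x hx
  have hsum : Summable fun k => ‖x (ξ k)‖ ^ 2 := by
    refine Summable.of_nonneg_of_le (fun k => by positivity) (fun k => ?_) (hS.mul_left (‖x‖ ^ 2))
    calc ‖x (ξ k)‖ ^ 2 ≤ (‖x‖ * ‖ξ k‖) ^ 2 := by
          gcongr; exact x.le_opNorm _
      _ = ‖x‖ ^ 2 * ‖ξ k‖ ^ 2 := by ring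
  have hz : ∀ k, x (ξ k) = 0 := by
    have h0 := (hasSum_zero_iff_of_nonneg (f := fun k => ‖x (ξ k)‖ ^ 2)
      (fun k => by positivity)).1 (by
        have := hsum.hasSum
        rw [show (∑' k, ‖x (ξ k)‖ ^ 2) = 0 from hx] at this
        exact this)
    intro k
    have := congrFun h0 k
    simpa using this
  have hz' : ∀ k, x (d k) = 0 := fun k => by
    have h1 := hz k
    simp only [hξ, map_smul, smul_eq_zero] at h1
    rcases h1 with h1 | h1
    · exfalso
      have := hcpos k
      have h2 : c k = 0 := by exact_mod_cast h1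
      linarith
    · exact h1
  ext η
  have : (x : H → H) = fun _ => 0 := by
    refine Continuous.ext_on hdense x.continuous continuous_const ?_
    rintro _ ⟨k, rfl⟩
    simpa using hz' k
  simpa using congrFun this η

end H917R2.Tr
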